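import Pool.Agent.Helper31.TMS.Defs

/-!
# Turing machines with one work tape: busy windows of the tape
-/

namespace Pool.Agent.Helper92.RECTT

open Pool.Agent.Helper65.LinSpace Pool.Agent.Helper78.Mpc
open Pool.Agent.Helper28.OHS (intW)
open Pool.Agent.Helper81.Sus2 (Decomp)
open Pool.Agent.Helper31.TMS (AcceptsAt)

/-- The work tape at the time `t` (the symbols of the cells `-2 ^ b, …, 2 ^ b - 1`) has a description of
at most `z` bits: a word `d` from which the decompressor `E` computes the code of the symbol of each of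
these cells. `E` is an arbitrary machine with random access to the input word `w` and to `d`, whose
states have at most `a` bits; its running time is not bounded. -/
def Short (M : TM 1) (code : M.Sym → List Bool) (E : Decomp) (w : List Bool) (b a z t : ℕ) : Prop :=
  ∃ d : List Bool, d.length ≤ z ∧ ∀ p : ℤ, -2 ^ b ≤ p → p < 2 ^ b →
    E.Says w [] a d (sd (intW p)) (code ((M.run w t).tape 0 p))

/-- If the machine accepts the word `w` of length `n` at a time `r < 2 ^ (K l)`, `l = ⌊log₂ n⌋ + 1` (this
is at least `n ^ K`), then there are a period from a time `t` to a time `t' ≤ r`, and a window of at most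
`(n + 1) ^ (3 / 2) / l ^ 3` (rounded up) cells `z, …, z' - 1` of the tape with the following properties. At
no time strictly between `t` and `t'` the tape (the cells `-2 ^ (K l), …, 2 ^ (K l) - 1`) has a description
of at most `c n` bits for `E` with states of at most `C (n + 1) / l ^ 2` bits. Every cell of the window is
visited more than `C (n + 1) / l ^ 3` times in the period. More than `C (n + 1) ^ (5 / 2) / l ^ 6` steps of
the period are made from cells of the window. -/
def Busy (M : TM 1) (code : M.Sym → List Bool) (E : Decomp) (c K : ℕ) (C : ℝ) (w : List Bool) :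
    Prop :=
  ∀ r, r < 2 ^ (K * (Nat.log 2 w.length + 1)) → AcceptsAt M w r →
    ∃ (t t' : ℕ) (z z' : ℤ), t ≤ t' ∧ t' ≤ r ∧
      z' ≤ z + ⌈((w.length : ℝ) + 1) ^ ((3 : ℝ) / 2) / ((Nat.log 2 w.length : ℝ) + 1) ^ 3⌉₊ ∧
      (∀ u, t < u → u < t' → ¬Short M code E w (K * (Nat.log 2 w.length + 1))
        ⌊C * (w.length + 1) / ((Nat.log 2 w.length : ℝ) + 1) ^ 2⌋₊ (c * w.length) u) ∧
      (∀ p, z ≤ p → p < z' →
        C * ((w.length : ℝ) + 1) / ((Nat.log 2 w.length : ℝ) + 1) ^ 3 <
          {u : ℕ | t ≤ u ∧ u < t' ∧ (M.run w u).head 0 = p}.ncard) ∧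
      C * ((w.length : ℝ) + 1) ^ ((5 : ℝ) / 2) / ((Nat.log 2 w.length : ℝ) + 1) ^ 6 <
        {u : ℕ | t ≤ u ∧ u < t' ∧ z ≤ (M.run w u).head 0 ∧ (M.run w u).head 0 < z'}.ncard

end Pool.Agent.Helper92.RECTT
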