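import Pool.Agent.Helper20.TMS.Sim
import Pool.Agent.Helper65.OH.Defs

/-!
# Turing machines with one work tape as machines with one head
-/

namespace Pool.Agent.Helper92.RECTT

open Pool.Agent.Helper65.LinSpace Pool.Agent.Helper78.Mpc Pool.Agent.Helper28.Ram
open Pool.Agent.Helper65.OH
open Pool.Agent.Helper31.TMS
open Pool.Agent.Helper20.TMS (pos_eq run_succ_none run_succ_some)

variable (M : TM 1) (code : M.Sym → List Bool)

/-- The word which `next` gets. -/
noncomputable def enc1 (t : Tup M) (p : ℕ) : List Bool :=
  sd (stW t.1 t.2.1 (idx M t.2.2.1) p) ++ (letW t.2.2.2.1 ++ (letW t.2.2.2.2.1 ++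
    code (t.2.2.2.2.2 0)))

variable {code}

theorem enc1_inj (hc : Function.Injective code) {t t' : Tup M} {p p' : ℕ}
    (h : enc1 M code t p = enc1 M code t' p') : t = t' ∧ p = p' := by
  obtain ⟨f, d, σ, a, b, s⟩ := t
  obtain ⟨f', d', σ', a', b', s'⟩ := t'
  obtain ⟨h1, h2⟩ := sd_inj h
  obtain ⟨h3, h4, h5, h6⟩ := stW_inj h1
  obtain ⟨h7, h8⟩ := letW_inj h2
  obtain ⟨h9, h10⟩ := letW_inj h8
  have h12 : s = s' := by
    funext i
    rw [Subsingleton.elim i 0]
    exact hc h10
  have h13 : σ = σ' := idx_inj M h5
  subst h12 h13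
  simp only at h3 h4 h7 h9
  rw [h3, h4, h7, h9]
  exact ⟨rfl, h6⟩

theorem le_enc1 (t : Tup M) (p : ℕ) : p ≤ num (enc1 M code t p) :=
  (le_num_stW _ _ _ _).trans ((num_le_sd _).trans (num_mono_left _ _))

theorem ls_enc1 (t : Tup M) : LS (fun p => num (enc1 M code t p)) := by
  have e : (fun p => num (enc1 M code t p)) = fun p =>
      catN (sdN (num (stW t.1 t.2.1 (idx M t.2.2.1) p)))
        (num (letW t.2.2.2.1 ++ (letW t.2.2.2.2.1 ++ code (t.2.2.2.2.2 0)))) := by
    funext p
    rw [sdN_num, catN_num]
    rfl
  rw [e]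
  have := ls_stW (f := fun p => p) LS.id t.1 t.2.1 (idx M t.2.2.1)
  fun_prop

/-- The machine `A` simulates `M`. -/
structure Sm1 (code : M.Sym → List Bool) (A : OneHead 1) : Prop where
  start : A.start = stW (k := 1) false (fun _ => Dir.stay) (idx M M.start) 0
  addr : ∀ (f : Bool) (d : Fin 1 → Dir) (σ : M.State) (p : ℕ),
    A.addr (stW f d (idx M σ) p) = (p - 1).bits
  next : ∀ t p, A.next (enc1 M code t p) = out M t p
  write : ∀ t p, A.write (enc1 M code t p) = outW M code 0 t p

theorem exists_mach1 (hc : Function.Injective code) : ∃ A : OneHead 1, Sm1 M code A := by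
  have := M.finState
  have := M.finSym
  obtain ⟨f1, l1, h1⟩ := exists_linComp (τ := Bool × (Fin 1 → Dir) × M.State)
    (fun t p => stW t.1 t.2.1 (idx M t.2.2) p) (fun _ p => (p - 1).bits)
    (fun t p => num (stW t.1 t.2.1 (idx M t.2.2) p)) (fun _ p => bitsN (p - 1))
    (fun t => ls_stW LS.id _ _ _) (fun t => by fun_prop) (fun _ _ => rfl)
    (fun t p => bitsN_eq _) (fun t t' p p' h => by
      obtain ⟨h3, h4, h5, h6⟩ := stW_inj h
      obtain ⟨f, d, σ⟩ := t
      obtain ⟨f', d', σ'⟩ := t'
      have h13 : σ = σ' := idx_inj M h5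
      subst h13
      simp only at h3 h4
      rw [h3, h4]
      exact ⟨rfl, h6⟩) (fun t p => le_num_stW _ _ _ _)
  obtain ⟨f2, l2, h2⟩ := exists_linComp (enc1 M code) (out M) (fun t p => num (enc1 M code t p))
    (fun t p => num (out M t p)) (ls_enc1 M) (ls_out M) (fun _ _ => rfl) (fun _ _ => rfl)
    (fun t t' p p' h => enc1_inj M hc h) (fun t p => le_enc1 M t p)
  obtain ⟨f3, l3, h3⟩ := exists_linComp (enc1 M code) (outW M code 0)
    (fun t p => num (enc1 M code t p)) (fun t p => num (outW M code 0 t p)) (ls_enc1 M)
    (fun t => ls_outW M 0 t) (fun _ _ => rfl) (fun _ _ => rfl)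
    (fun t t' p p' h => enc1_inj M hc h) (fun t p => le_enc1 M t p)
  exact ⟨⟨stW false (fun _ => Dir.stay) (idx M M.start) 0, f1, f2, f3, l1, l2, l3⟩,
    ⟨rfl, fun f d σ p => h1 (f, d, σ) p, h2, h3⟩⟩

variable {M}

/-- The machine `A` simulates `M` step by step. -/
theorem sim1 {A : OneHead 1} (hb : code M.blank = []) (hA : Sm1 M code A) (w y : List Bool)
    (t : ℕ) :
    (∃ f d, (A.conf w y t).q = stW (k := 1) f d (idx M (M.run w t).state) (M.run w t).inp ∧
      (f = true ↔ ∃ u, t = u + 1 ∧ AcceptsAt M w u)) ∧
    ((A.conf w y t).h = fun _ => (M.run w t).head 0) ∧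
    (∀ z, (A.conf w y t).M z = code ((M.run w t).tape 0 (z 0))) := by
  classical
  induction t with
  | zero =>
    refine ⟨⟨false, fun _ => Dir.stay, hA.start, ?_⟩, ?_, fun z => ?_⟩
    · simp
    · funext z; rfl
    · show ([] : List Bool) = code M.blank
      exact hb.symm
  | succ t ih =>
    obtain ⟨⟨f, d, hq, hf⟩, hh, hM⟩ := ih
    set c := A.conf w y t with hc
    set R := M.run w t with hR
    have hp : R.inp ≤ w.length + 1 := Pool.Agent.Helper20.TMS.inp_le M w t
    have haddr : A.addr c.q = (R.inp - 1).bits := by rw [hq]; exact hA.addr _ _ _ _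
    have hrd : c.M c.h = code (R.tape 0 (R.head 0)) := by rw [hM, hh]
    have hsy : (fun i => R.tape i (R.head i)) = fun _ : Fin 1 => R.tape 0 (R.head 0) := by
      funext i
      rw [Subsingleton.elim i 0]
    have hinp : A.inp w y c.q (c.M c.h) = enc1 M code
        (f, d, R.state, w[R.inp - 1]?, y[R.inp - 1]?, fun i => R.tape i (R.head i)) R.inp := by
      unfold OneHead.inp enc1
      rw [haddr, bval_bits, hq, hrd]
    have hnx : A.next (A.inp w y c.q (c.M c.h)) =
        res M R.state (inputSym w R.inp) (fun i => R.tape i (R.head i)) R.inp := by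
      rw [hinp, hA.next]
      rfl
    have hwr : A.write (A.inp w y c.q (c.M c.h)) = code (sym M R.state (inputSym w R.inp)
        (fun i => R.tape i (R.head i)) 0) := by
      rw [hinp, hA.write]
      rfl
    have hqs : (A.conf w y (t + 1)).q = A.next (A.inp w y c.q (c.M c.h)) := rfl
    have hhs : ∀ z, (A.conf w y (t + 1)).h z = c.h z + mv (A.next (A.inp w y c.q (c.M c.h))) z :=
      fun z => rfl
    have hMs : (A.conf w y (t + 1)).M =
        Function.update c.M c.h (A.write (A.inp w y c.q (c.M c.h))) := rfl
    cases hs : M.step R.state (inputSym w R.inp) (fun i => R.tape i (R.head i)) with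
    | none =>
      obtain ⟨hrun, hnone⟩ := run_succ_none (M := M) (w := w) (t := t) hs
      have hres : A.next (A.inp w y c.q (c.M c.h)) =
          stW (k := 1) (decide (R.state ∈ M.accept)) (fun _ => Dir.stay) (idx M R.state)
            R.inp := by
        rw [hnx]
        unfold res
        rw [hs]
      rw [hrun, ← hR]
      refine ⟨⟨_, _, by rw [hqs]; exact hres, ?_⟩, ?_, fun z => ?_⟩
      · rw [decide_eq_true_iff]
        constructor
        · intro h
          exact ⟨t, rfl, hnone, h⟩
        · rintro ⟨u, hu, -, h⟩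
          obtain rfl : t = u := by omega
          exact h
      · funext z
        rw [hhs, hres, hh, Subsingleton.elim z 0]
        have h1 := mv_stW (k := 1) (decide (R.state ∈ M.accept)) (fun _ => Dir.stay)
          (idx M R.state) R.inp 0
        simp only [Fin.val_zero] at h1 ⊢
        rw [h1]
        simp [Dir.toInt]
      · rw [hMs, hwr, hh]
        have h1 : sym M R.state (inputSym w R.inp) (fun i => R.tape i (R.head i)) 0 =
            R.tape 0 (R.head 0) := by
          unfold sym
          rw [hs]
        rw [h1]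
        by_cases hz : z = fun _ => R.head 0
        · rw [hz, Function.update_self]
        · rw [Function.update_of_ne hz, hM]
    | some x =>
      obtain ⟨hrun, hnone⟩ := run_succ_some (M := M) (w := w) (t := t) hs
      have hres : A.next (A.inp w y c.q (c.M c.h)) =
          stW false (fun j => (x.2.2 j).2) (idx M x.1) (inputMove w x.2.1 R.inp) := by
        rw [hnx]
        unfold res
        rw [hs]
        simp only [pos_eq w R.inp hp]
      rw [hrun, ← hR]
      refine ⟨⟨_, _, by rw [hqs]; exact hres, ?_⟩, ?_, fun z => ?_⟩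
      · constructor
        · intro h
          exact absurd h (by simp)
        · rintro ⟨u, hu, h, -⟩
          obtain rfl : t = u := by omega
          exact absurd h hnone
      · funext z
        rw [hhs, hres, hh, Subsingleton.elim z 0]
        have h1 := mv_stW (k := 1) false (fun j => (x.2.2 j).2) (idx M x.1)
          (inputMove w x.2.1 R.inp) 0
        simp only [Fin.val_zero] at h1 ⊢
        rw [h1]
      · rw [hMs, hwr, hh]
        have h1 : sym M R.state (inputSym w R.inp) (fun i => R.tape i (R.head i)) 0 =
            (x.2.2 0).1 := by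
          unfold sym
          rw [hs]
        rw [h1]
        show _ = code (Function.update (R.tape 0) (R.head 0) (x.2.2 0).1 (z 0))
        by_cases hz : z 0 = R.head 0
        · have hz2 : z = fun _ => R.head 0 := by
            funext i
            rw [Subsingleton.elim i 0]
            exact hz
          rw [hz, hz2, Function.update_self, Function.update_self]
        · have hz2 : z ≠ fun _ => R.head 0 := by
            intro h
            exact hz (by rw [h])
          rw [Function.update_of_ne hz, Function.update_of_ne hz2, hM]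

end Pool.Agent.Helper92.RECTT
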