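import Pool.Agent.Helper92.RECT.Goals7
import Pool.Agent.Helper50.RECT.WND

/-!
# One tape: runs of cells which are visited often

Let `vis p` be the number of visits of the cell `p` in the period from `t` to `t'`. If at most `X` steps
are made in every window of at most `B` cells all of which are visited more than `ν` times, and
`X < B (ν + 1)`, then the tape can be cut at both sides of all cells which are visited at most `ν` times.
-/

namespace Pool.Agent.Helper92.RECTT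

open Pool.Agent.Helper65.LinSpace Pool.Agent.Helper78.Mpc Pool.Agent.Helper28.Ram
open Pool.Agent.Helper92.RECT
open Pool.Agent.Helper65.OH
open Pool.Agent.Helper81.Sus2 (Decomp)
open Pool.Agent.Helper28.OHS (Box Short)
open Pool.Agent.Helper50.RECT (pos_bd lam6 lam3 add_two_le)

section core

variable {pos : ℕ → ℤ} {t t' : ℕ}

/-- The number of visits of the cell `p`. -/
noncomputable def vis (pos : ℕ → ℤ) (t t' : ℕ) (p : ℤ) : ℕ :=
  {u : ℕ | t ≤ u ∧ u < t' ∧ pos u = p}.ncard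

theorem fin_of {S : Set ℕ} (h : ∀ u ∈ S, u < t') : S.Finite :=
  (Set.finite_lt_nat t').subset fun u hu => h u hu

/-- A hyperplane at one side of the cell `p` is crossed at most `2 vis p + 1` times. -/
theorem crs_le (hstep : ∀ u, pos u - 1 ≤ pos (u + 1) ∧ pos (u + 1) ≤ pos u + 1) {p Q : ℤ}
    (hQ : Q = p ∨ Q = p + 1) :
    {u : ℕ | t ≤ u ∧ u < t' ∧ ¬(pos u < Q ↔ pos (u + 1) < Q)}.ncard ≤
      2 * vis pos t t' p + 1 := by
  have h1 : {u : ℕ | t ≤ u ∧ u < t' ∧ ¬(pos u < Q ↔ pos (u + 1) < Q)} ⊆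
      {u : ℕ | t ≤ u ∧ u < t' ∧ pos u = p} ∪
        {u : ℕ | t ≤ u ∧ u < t' ∧ pos (u + 1) = p} := by
    rintro u ⟨g1, g2, g3⟩
    have h2 := hstep u
    by_cases h : pos u = p
    · exact Or.inl ⟨g1, g2, h⟩
    · refine Or.inr ⟨g1, g2, ?_⟩
      rcases hQ with rfl | rfl <;> omega
  have h2 : {u : ℕ | t ≤ u ∧ u < t' ∧ pos (u + 1) = p}.ncard ≤ vis pos t t' p + 1 := by
    have h3 : (fun u => u + 1) '' {u : ℕ | t ≤ u ∧ u < t' ∧ pos (u + 1) = p} ⊆
        {u : ℕ | t ≤ u ∧ u < t' ∧ pos u = p} ∪ {t'} := by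
      rintro _ ⟨u, ⟨g1, g2, g3⟩, rfl⟩
      show (t ≤ u + 1 ∧ u + 1 < t' ∧ pos (u + 1) = p) ∨ u + 1 = t'
      rcases Nat.lt_or_ge (u + 1) t' with h | h
      · exact Or.inl ⟨by omega, h, g3⟩
      · exact Or.inr (by omega)
    rw [← Set.ncard_image_of_injective _ (add_left_injective 1)]
    refine (Set.ncard_le_ncard h3 ((fin_of fun u hu => hu.2.1).union
      (Set.finite_singleton t'))).trans ((Set.ncard_union_le _ _).trans ?_)
    rw [Set.ncard_singleton]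
    exact le_rfl
  calc _ ≤ _ := Set.ncard_le_ncard h1 ((fin_of (t' := t') fun u hu => hu.2.1).union
        (fin_of (t' := t') fun u hu => hu.2.1))
    _ ≤ _ := Set.ncard_union_le _ _
    _ ≤ vis pos t t' p + (vis pos t t' p + 1) := Nat.add_le_add_left h2 _
    _ = _ := by ring

/-- Many steps are made in a window all of whose cells are visited often. -/
theorem sum_vis {ν B : ℕ} {z : ℤ} (h : ∀ j : ℕ, j < B → ν < vis pos t t' (z + j)) :
    B * (ν + 1) ≤ {u : ℕ | t ≤ u ∧ u < t' ∧ z ≤ pos u ∧ pos u < z + B}.ncard := by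
  induction B with
  | zero => simp
  | succ B ih =>
    have h1 := ih fun j hj => h j (by omega)
    have h2 := h B (by omega)
    have hdis : Disjoint {u : ℕ | t ≤ u ∧ u < t' ∧ z ≤ pos u ∧ pos u < z + B}
        {u : ℕ | t ≤ u ∧ u < t' ∧ pos u = z + B} := by
      rw [Set.disjoint_left]
      rintro u ⟨_, _, _, g1⟩ ⟨_, _, g2⟩
      omega
    have hsub : {u : ℕ | t ≤ u ∧ u < t' ∧ z ≤ pos u ∧ pos u < z + B} ∪
        {u : ℕ | t ≤ u ∧ u < t' ∧ pos u = z + B} ⊆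
        {u : ℕ | t ≤ u ∧ u < t' ∧ z ≤ pos u ∧ pos u < z + ((B + 1 : ℕ) : ℤ)} := by
      rintro u (⟨g1, g2, g3, g4⟩ | ⟨g1, g2, g3⟩)
      · exact ⟨g1, g2, g3, by push_cast; omega⟩
      · exact ⟨g1, g2, by omega, by push_cast; omega⟩
    have h3 := Set.ncard_union_eq hdis (fin_of (t' := t') fun u hu => hu.2.1)
      (fin_of (t' := t') fun u hu => hu.2.1)
    calc (B + 1) * (ν + 1) = B * (ν + 1) + (ν + 1) := by ring
      _ ≤ _ := Nat.add_le_add h1 h2
      _ = _ := h3.symm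
      _ ≤ _ := Set.ncard_le_ncard hsub (fin_of (t' := t') fun u hu => hu.2.1)

/-- The next hyperplane of the cut. -/
theorem next {ν B X : ℕ} (hstep : ∀ u, pos u - 1 ≤ pos (u + 1) ∧ pos (u + 1) ≤ pos u + 1)
    (hB : 0 < B) (hX : X < B * (ν + 1))
    (hwin : ∀ z z' : ℤ, z' ≤ z + B → (∀ p, z ≤ p → p < z' → ν < vis pos t t' p) →
      {u : ℕ | t ≤ u ∧ u < t' ∧ z ≤ pos u ∧ pos u < z'}.ncard ≤ X) (P : ℤ) :
    ∃ Q : ℤ, P < Q ∧ Q ≤ P + B ∧
      {u : ℕ | t ≤ u ∧ u < t' ∧ ¬(pos u < Q ↔ pos (u + 1) < Q)}.ncard ≤ 2 * ν + 1 ∧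
      {u : ℕ | t ≤ u ∧ u < t' ∧ P ≤ pos u ∧ pos u < Q}.ncard ≤ max X ν := by
  classical
  rcases Nat.lt_or_ge ν (vis pos t t' P) with h | h
  · have hex : ∃ j : ℕ, vis pos t t' (P + j) ≤ ν := by
      by_contra hcon
      push Not at hcon
      have h1 := sum_vis (pos := pos) (t := t) (t' := t') (ν := ν) (B := B) (z := P)
        fun j _ => hcon j
      have h2 := hwin P (P + B) le_rfl fun p hp _ => by
        obtain ⟨j, hj⟩ := Int.eq_ofNat_of_zero_le (by omega : 0 ≤ p - P)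
        have := hcon j
        rwa [show P + (j : ℤ) = p by omega] at this
      omega
    have hm := Nat.find_spec hex
    have hlt : ∀ i < Nat.find hex, ν < vis pos t t' (P + i) := fun i hi =>
      not_le.1 (Nat.find_min hex hi)
    generalize Nat.find hex = j at hm hlt
    have hj0 : 0 < j := by
      rcases Nat.eq_zero_or_pos j with h0 | h0
      · rw [h0] at hm
        simp only [Nat.cast_zero, add_zero] at hm
        omega
      · exact h0
    have hjB : j ≤ B := by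
      by_contra hcon
      have h1 := sum_vis (pos := pos) (t := t) (t' := t') (ν := ν) (B := B) (z := P)
        fun i hi => hlt i (by omega)
      have h2 := hwin P (P + B) le_rfl fun p hp hp' => by
        obtain ⟨i, hi⟩ := Int.eq_ofNat_of_zero_le (by omega : 0 ≤ p - P)
        have := hlt i (by omega)
        rwa [show P + (i : ℤ) = p by omega] at this
      omega
    refine ⟨P + j, by omega, by omega, ?_, ?_⟩
    · refine (crs_le hstep (p := P + j) (Or.inl rfl)).trans ?_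
      omega
    · refine (hwin P (P + j) (by omega) fun p hp hp' => ?_).trans (le_max_left _ _)
      obtain ⟨i, hi⟩ := Int.eq_ofNat_of_zero_le (by omega : 0 ≤ p - P)
      have := hlt i (by omega)
      rwa [show P + (i : ℤ) = p by omega] at this
  · refine ⟨P + 1, by omega, by omega, ?_, ?_⟩
    · refine (crs_le hstep (p := P) (Or.inr rfl)).trans ?_
      omega
    · refine le_trans (Set.ncard_le_ncard (t := {u : ℕ | t ≤ u ∧ u < t' ∧ pos u = P}) ?_
        (fin_of (t' := t') fun u hu => hu.2.1)) (h.trans (le_max_right _ _))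
      rintro u ⟨g1, g2, g3, g4⟩
      exact ⟨g1, g2, by omega⟩

end core

/-- The cut of a period. -/
theorem cut3 (A : OneHead 1) (w y : List Bool) {r B X ν R : ℕ} (hB : 0 < B) (hBR : B ≤ 2 ^ R)
    (hr : r ≤ 2 ^ R) {t t' : ℕ} (ht' : t' ≤ r) (hX : X < B * (ν + 1))
    (hwin : ∀ z z' : ℤ, z' ≤ z + B →
      (∀ p, z ≤ p → p < z' → ν < vis (fun u => fst (A.conf w y u).h) t t' p) →
      {u : ℕ | t ≤ u ∧ u < t' ∧ z ≤ fst (A.conf w y u).h ∧
        fst (A.conf w y u).h < z'}.ncard ≤ X) (s h : ℕ) :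
    Cut A w y s (R + 4) (max X ν) h (R + 4) (2 * ν + 1) t t' := by
  have hstep : ∀ u, fst (A.conf w y u).h - 1 ≤ fst (A.conf w y (u + 1)).h ∧
      fst (A.conf w y (u + 1)).h ≤ fst (A.conf w y u).h + 1 := fun u =>
    Pool.Agent.Helper30.RECT.fst_step one_pos A w y (A.conf w y u)
  choose nx hn1 hn2 hn3 hn4 using fun P => next (pos := fun u => fst (A.conf w y u).h)
    (t := t) (t' := t') hstep hB hX hwin P
  obtain ⟨P, hP0, hPs⟩ : ∃ P : ℕ → ℤ, P 0 = -2 ^ R - 1 ∧ ∀ i, P (i + 1) = nx (P i) :=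
    ⟨fun i => nx^[i] (-2 ^ R - 1), rfl, fun i => Function.iterate_succ_apply' _ _ _⟩
  have hPi : ∀ i : ℕ, P 0 + i ≤ P i := by
    intro i
    induction i with
    | zero => simp
    | succ i ih =>
      have := hn1 (P i)
      rw [hPs]
      push_cast
      omega
  have hub : ∀ u : ℕ, u ≤ r → -2 ^ R ≤ fst (A.conf w y u).h ∧
      fst (A.conf w y u).h ≤ 2 ^ R := by
    intro u hu
    have h1 := pos_bd A w y u
    have h2 : (u : ℤ) ≤ 2 ^ R := by
      have : u ≤ 2 ^ R := by omega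
      exact_mod_cast this
    exact ⟨by linarith [h1.1], by linarith [h1.2]⟩
  refine ⟨2 * 2 ^ R + 3, P, ?_, ?_, ?_, ?_, ?_⟩
  · have : 1 ≤ 2 ^ R := Nat.one_le_two_pow
    rw [pow_add]
    omega
  · intro i _
    rw [hPs]
    refine ⟨hn1 _, (hn2 _).trans ?_⟩
    have h1 : (B : ℤ) ≤ 2 ^ R := by exact_mod_cast hBR
    have h2 : (2 : ℤ) ^ R ≤ 2 ^ (R + 4) := by
      exact_mod_cast Nat.pow_le_pow_right (by norm_num) (Nat.le_add_right _ _)
    linarith
  · intro u _ hu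
    obtain ⟨h1, h2⟩ := hub u (by omega)
    refine ⟨⟨?_, ?_⟩, fun j hj => absurd (by omega : j.val = 0) hj⟩
    · rw [hP0]
      linarith
    · have h3 := hPi (2 * 2 ^ R + 3)
      rw [hP0] at h3
      push_cast at h3
      linarith
  · intro i _
    rcases Nat.eq_zero_or_pos i with h0 | h0
    · subst h0
      have : {u : ℕ | t ≤ u ∧ u < t' ∧ Crs A w y (P 0) u} = ∅ := by
        rw [Set.eq_empty_iff_forall_notMem]
        rintro u ⟨g1, g2, g3⟩
        obtain ⟨h1, -⟩ := hub u (by omega)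
        obtain ⟨h2, -⟩ := hub (u + 1) (by omega)
        refine g3 ?_
        rw [hP0]
        constructor
        · intro h
          linarith
        · intro h
          linarith
      rw [this, Set.ncard_empty]
      exact Nat.zero_le _
    · obtain ⟨i, rfl⟩ : ∃ j, i = j + 1 := ⟨i - 1, by omega⟩
      rw [hPs]
      exact hn3 (P i)
  · intro i _
    rw [hPs]
    have h2 : time A w y (P i) (nx (P i)) t t' ≤ max X ν := hn4 (P i)
    have h1 : work A w y (P i) (nx (P i)) t t' ≤ time A w y (P i) (nx (P i)) t t' :=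
      Set.ncard_le_ncard (fun u hu => ⟨hu.1, hu.2.1, hu.2.2.1⟩)
        (fin_of (t' := t') fun u hu => hu.2.1)
    refine ⟨h1.trans h2, Or.inl ?_⟩
    calc _ ≤ max X ν := h2
      _ ≤ 1 * (max X ν + 1) := by omega
      _ ≤ 2 ^ h * (max X ν + 1) := Nat.mul_le_mul_right _ Nat.one_le_two_pow

/-- The inequalities. -/
theorem within3 (A : OneHead 1) (E : Decomp) (c K₀ : ℕ) (C₀ : ℝ) : ∃ C' : ℝ, ∀ w y : List Bool,
    ∀ r g a x N : ℕ, A.AcceptsAt w y r → r ≤ (w.length + 2) ^ K₀ →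
    A.Fits w y r (K₀ * (Nat.log 2 w.length + 1)) → g ≤ K₀ * (Nat.log 2 w.length + 1) →
    (∀ t ≤ r, Box g (A.conf w y t).h) →
    (∀ t t' : ℕ, t ≤ t' → t' ≤ r →
      (∀ u, t < u → u < t' → ¬Short A E w y g a (c * w.length) u) → ∀ R s h : ℕ,
      (w.length + 2) ^ (K₀ + 1) ≤ 2 ^ R → Cut A w y s (R + 4) x h (R + 4) N t t') →
    (x : ℝ) * ((Nat.log 2 w.length : ℝ) + 1) ^ 6 ≤ C₀ * ((w.length : ℝ) + 1) ^ ((5 : ℝ) / 2) →
    (N : ℝ) * ((Nat.log 2 w.length : ℝ) + 1) ^ 3 ≤ C₀ * ((w.length : ℝ) + 1) →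
    (a : ℝ) * ((Nat.log 2 w.length : ℝ) + 1) ^ 2 ≤ C₀ * ((w.length : ℝ) + 1) →
    Within A E c C' w y := by
  obtain ⟨K, hK⟩ : ∃ K : ℕ, K = K₀ + 1 := ⟨_, rfl⟩
  obtain ⟨C, hC⟩ : ∃ C : ℝ, C = max C₀ 1 := ⟨_, rfl⟩
  have hC0 : C₀ ≤ C := hC ▸ le_max_left _ _
  have hC1 : 1 ≤ C := hC ▸ le_max_right _ _
  have hK1 : (1 : ℝ) ≤ (K : ℝ) := by
    have : 1 ≤ K := by omega
    exact_mod_cast this
  refine ⟨10000 * (K : ℝ) ^ 6 * C + 330 * (K : ℝ) ^ 3 * 47 + 1260 * (K : ℝ) ^ 3 * (C + 2200) +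
    100 * (K : ℝ) ^ 2 * C, fun w y r g a x N hacc hr hfit hg hbox hcut hX1 hX2 hX3 => ?_⟩
  obtain ⟨l, hl⟩ : ∃ l : ℕ, l = Nat.log 2 w.length + 1 := ⟨_, rfl⟩
  have hnl : w.length + 2 ≤ 2 ^ (2 * l) := by
    rw [hl]
    exact add_two_le _
  have hKp : (w.length + 2) ^ (K₀ + 1) ≤ 2 ^ (2 * K * l) := by
    calc (w.length + 2) ^ (K₀ + 1) = (w.length + 2) ^ K := by rw [hK]
      _ ≤ (2 ^ (2 * l)) ^ K := Nat.pow_le_pow_left hnl K
      _ = 2 ^ (2 * K * l) := by
        rw [← pow_mul]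
        congr 1
        ring
  have hC2 : 0 ≤ C := by linarith
  have hy : (0 : ℝ) < (w.length : ℝ) + 1 := by positivity
  generalize hyy : (w.length : ℝ) + 1 = y' at *
  obtain ⟨lam, hlam⟩ : ∃ lam : ℝ, lam = (Nat.log 2 w.length : ℝ) + 1 := ⟨_, rfl⟩
  have hll : (l : ℝ) = lam := by
    rw [hl, hlam]
    push_cast
    ring
  have hlam1 : 1 ≤ lam := by
    rw [hlam]
    have : (0 : ℝ) ≤ (Nat.log 2 w.length : ℝ) := by positivity
    linarith
  have h6 : lam ^ 6 ≤ 2200 * y' := by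
    rw [hlam, ← hyy]
    exact lam6 _
  have h3 : lam ^ 3 ≤ 47 * y' ^ ((1 : ℝ) / 2) := by
    rw [hlam, ← hyy]
    exact lam3 _
  rw [← hlam] at hX1 hX2 hX3
  have hXr : (0 : ℝ) ≤ (x : ℝ) := by positivity
  have hNr : (0 : ℝ) ≤ (N : ℝ) := by positivity
  have har : (0 : ℝ) ≤ (a : ℝ) := by positivity
  have hgK : g ≤ K * l := by
    rw [← hl] at hg
    exact hg.trans (Nat.mul_le_mul_right _ (by omega))
  obtain ⟨κ, hκ⟩ : ∃ κ : ℝ, κ = (K : ℝ) := ⟨_, rfl⟩
  rw [← hκ] at hK1 ⊢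
  obtain ⟨p, hp⟩ : ∃ p : ℝ, p = κ * lam := ⟨_, rfl⟩
  have hplam : lam ≤ p := by
    rw [hp]
    nlinarith
  have hp1 : 1 ≤ p := hlam1.trans hplam
  have hy5 : 0 ≤ y' ^ ((5 : ℝ) / 2) := by positivity
  have hy1 : 0 ≤ y' ^ ((1 : ℝ) / 2) := by positivity
  have hT1 : 0 ≤ 10000 * κ ^ 6 * C := by positivity
  have hT2 : 0 ≤ 330 * κ ^ 3 * 47 := by positivity
  have hT3 : 0 ≤ 1260 * κ ^ 3 * (C + 2200) := by positivity
  have hT4 : 0 ≤ 100 * κ ^ 2 * C := by positivity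
  have hs : ((K * l : ℕ) : ℝ) = p := by
    rw [Nat.cast_mul, hll, ← hκ, hp]
  have hgp : (g : ℝ) ≤ p := by
    rw [← hs]
    exact_mod_cast hgK
  have hL : ((2 * K * l + (2 * K * l + 4) : ℕ) : ℝ) + ((Nat.log 2 w.length : ℝ) + 1) =
      4 * p + 4 + lam := by
    rw [← hlam]
    push_cast
    rw [hll, ← hκ, hp]
    ring
  have hL0 : 0 ≤ 4 * p + 4 + lam := by linarith
  have hL7 : 4 * p + 4 + lam ≤ 10 * p := by linarith
  refine ⟨r, K * l, g, a, 2 * K * l + 4, x, 2 * K * l, 2 * K * l + 4,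
    N, hacc, ?_, hbox, ?_, ?_, ?_, ?_, ?_⟩
  · intro t ht
    have h1 : K₀ * (Nat.log 2 w.length + 1) ≤ K * l := by
      rw [← hl]
      exact Nat.mul_le_mul_right _ (by omega)
    obtain ⟨h2, h3, h4⟩ := hfit t ht
    exact ⟨h2.trans h1, h3.trans h1, fun z => (h4 z).trans h1⟩
  · intro t t' htt ht' hsh
    exact hcut t t' htt ht' hsh _ _ _ hKp
  · have e1 : (1 : ℝ) + 1 / ((1 : ℕ) : ℝ) = ((2 : ℕ) : ℝ) := by norm_num
    have e2 : (3 : ℝ) / 2 + 1 / ((1 : ℕ) : ℝ) = 5 / 2 := by norm_num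
    rw [e1, e2, Real.rpow_natCast, hs, hL, hyy]
    have h1 : (4 * p + 4 + lam) ^ 4 ≤ (10 * p) ^ 4 := pow_le_pow_left₀ hL0 hL7 4
    calc (x : ℝ) * p ^ 2 * (4 * p + 4 + lam) ^ 4
        ≤ (x : ℝ) * p ^ 2 * (10 * p) ^ 4 :=
          mul_le_mul_of_nonneg_left h1 (by positivity)
      _ = 10000 * κ ^ 6 * ((x : ℝ) * lam ^ 6) := by
        rw [hp]
        ring
      _ ≤ 10000 * κ ^ 6 * (C * y' ^ ((5 : ℝ) / 2)) := by
        refine mul_le_mul_of_nonneg_left (hX1.trans ?_) (by positivity)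
        exact mul_le_mul_of_nonneg_right hC0 hy5
      _ = 10000 * κ ^ 6 * C * y' ^ ((5 : ℝ) / 2) := by ring
      _ ≤ _ := mul_le_mul_of_nonneg_right (by linarith) hy5
  · have e : ((2 * K * l : ℕ) : ℝ) = 2 * p := by
      push_cast
      rw [hll, ← hκ, hp]
      ring
    rw [hs, hL, e, hyy]
    calc (p + (4 * p + 4 + lam)) * (2 * p + 1) * (4 * p + 4 + lam)
        ≤ (11 * p) * (3 * p) * (10 * p) := by
          refine mul_le_mul (mul_le_mul (by linarith) (by linarith) (by linarith) (by linarith))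
            hL7 hL0 (by positivity)
      _ = 330 * κ ^ 3 * lam ^ 3 := by
        rw [hp]
        ring
      _ ≤ 330 * κ ^ 3 * (47 * y' ^ ((1 : ℝ) / 2)) :=
        mul_le_mul_of_nonneg_left h3 (by positivity)
      _ = 330 * κ ^ 3 * 47 * y' ^ ((1 : ℝ) / 2) := by ring
      _ ≤ _ := mul_le_mul_of_nonneg_right (by linarith) hy1
  · rw [hL, hyy]
    calc (a : ℝ) * (4 * p + 4 + lam) ^ 2
        ≤ (a : ℝ) * (10 * p) ^ 2 :=
          mul_le_mul_of_nonneg_left (pow_le_pow_left₀ hL0 hL7 2) har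
      _ = 100 * κ ^ 2 * ((a : ℝ) * lam ^ 2) := by
        rw [hp]
        ring
      _ ≤ 100 * κ ^ 2 * (C * y') := by
        refine mul_le_mul_of_nonneg_left (hX3.trans ?_) (by positivity)
        exact mul_le_mul_of_nonneg_right hC0 hy.le
      _ = 100 * κ ^ 2 * C * y' := by ring
      _ ≤ _ := mul_le_mul_of_nonneg_right (by linarith) hy.le
  · have e : ((2 * K * l + 4 : ℕ) : ℝ) = 2 * p + 4 := by
      push_cast
      rw [hll, ← hκ, hp]
      ring
    rw [hs, hL, e, hyy]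
    have h13 : lam ^ 3 ≤ lam ^ 6 := pow_le_pow_right₀ hlam1 (by norm_num)
    have hN : ((N : ℝ) + 1) * lam ^ 3 ≤ (C + 2200) * y' := by
      have h4 : C₀ * y' ≤ C * y' := mul_le_mul_of_nonneg_right hC0 hy.le
      calc ((N : ℝ) + 1) * lam ^ 3 = (N : ℝ) * lam ^ 3 + lam ^ 3 := by ring
        _ ≤ C * y' + 2200 * y' := by linarith
        _ = _ := by ring
    have hN1 : 1 ≤ (N : ℝ) + 1 := by linarith
    have hg0 : (0 : ℝ) ≤ (g : ℝ) := by positivity
    have e1 : (g : ℝ) + (2 * p + 4) + ((N : ℝ) + 1) * (p + (4 * p + 4 + lam)) ≤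
        18 * p * ((N : ℝ) + 1) := by
      have e2 : ((N : ℝ) + 1) * (p + (4 * p + 4 + lam)) ≤ ((N : ℝ) + 1) * (11 * p) :=
        mul_le_mul_of_nonneg_left (by linarith) (by linarith)
      have e3 : (g : ℝ) + (2 * p + 4) ≤ 7 * p * ((N : ℝ) + 1) := by
        have : 7 * p * 1 ≤ 7 * p * ((N : ℝ) + 1) :=
          mul_le_mul_of_nonneg_left hN1 (by linarith)
        linarith
      linarith
    calc (2 * p + 4 + 1) * ((g : ℝ) + (2 * p + 4) + ((N : ℝ) + 1) * (p + (4 * p + 4 + lam))) *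
          (4 * p + 4 + lam)
        ≤ (7 * p) * (18 * p * ((N : ℝ) + 1)) * (10 * p) := by
          refine mul_le_mul (mul_le_mul (by linarith) e1 ?_ (by linarith)) hL7 hL0 (by positivity)
          have : 0 ≤ ((N : ℝ) + 1) * (p + (4 * p + 4 + lam)) :=
            mul_nonneg (by linarith) (by linarith)
          linarith
      _ = 1260 * κ ^ 3 * (((N : ℝ) + 1) * lam ^ 3) := by
        rw [hp]
        ring
      _ ≤ 1260 * κ ^ 3 * ((C + 2200) * y') :=
        mul_le_mul_of_nonneg_left hN (by positivity)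
      _ = 1260 * κ ^ 3 * (C + 2200) * y' := by ring
      _ ≤ _ := mul_le_mul_of_nonneg_right (by linarith) hy.le

end Pool.Agent.Helper92.RECTT
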