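import Pool.Agent.Helper92.RECTT.Two
import Pool.Agent.Helper92.RECTT.Sim
import Pool.Agent.Helper92.RECTT.Defs
import Pool.Agent.Helper92.RECTT.Wnd3
import Pool.Agent.Helper31.TMS.WTH

/-!
# Turing machines with one work tape have busy windows
-/

namespace Pool.Agent.Helper92.RECTT

open Pool.Agent.Helper65.LinSpace Pool.Agent.Helper28.Ram Pool.Agent.Helper78.Mpc
open Pool.Agent.Helper65.OH (OneHead)
open Pool.Agent.Helper92.RECT
open Pool.Agent.Helper28.OHS (Box cellW intW)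
open Pool.Agent.Helper31.TMS (AcceptsAt stW stW_head idx)
open Pool.Agent.Helper81.Sus2 (Decomp)
open Pool.Agent.Helper81.Gen4 (Q)
open Pool.Agent.Helper31.Gen5 (Hard)
open Pool.Agent.Helper50.RECT (lam6 lam3 two_pow_log pos_bd)

theorem cellW_one (p : Fin 1 → ℤ) : cellW p = sd (intW (p 0)) := by
  unfold cellW
  simp [List.ofFn_succ]

theorem fst_one (p : Fin 1 → ℤ) : fst p = p 0 := by
  unfold fst
  simp

section

variable {M : TM 1} {code : M.Sym → List Bool} {A : OneHead 1}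

theorem fst_conf (hb : code M.blank = []) (hA : Sm1 M code A) (w : List Bool) (u : ℕ) :
    fst (A.conf w [] u).h = (M.run w u).head 0 := by
  rw [fst_one, (sim1 hb hA w [] u).2.1]

theorem short_of (hb : code M.blank = []) (hA : Sm1 M code A) {E : Decomp} {w : List Bool}
    {b a z u : ℕ} (h : Short M code E w b a z u) :
    Pool.Agent.Helper28.OHS.Short A E w [] b a z u := by
  obtain ⟨d, hd, hd'⟩ := h
  refine ⟨d, hd, fun p hp => ?_⟩
  rw [(sim1 hb hA w [] u).2.2, cellW_one]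
  exact hd' (p 0) (hp 0).1 (hp 0).2

theorem head_bd (hb : code M.blank = []) (hA : Sm1 M code A) (w : List Bool) (u : ℕ) :
    -(u : ℤ) ≤ (M.run w u).head 0 ∧ (M.run w u).head 0 ≤ u := by
  have := pos_bd A w [] u
  rw [fst_conf hb hA] at this
  exact this

theorem run_eq {w : List Bool} {r : ℕ} (h : AcceptsAt M w r) : M.run w (r + 1) = M.run w r :=
  Pool.Agent.Helper31.TMS.run_halt M h.1

/-- A machine without busy windows is within the bounds. -/
theorem within_of (hb : code M.blank = []) (hA : Sm1 M code A) (E : Decomp) (c K : ℕ) (C : ℝ) :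
    ∃ C' : ℝ, ∀ w, ¬Busy M code E c K C w → Within A E c C' w [] := by
  have := M.finState
  have := M.finSym
  obtain ⟨c₁, hc₁⟩ := Pool.Agent.Helper31.TMS.exists_bound fun s : M.Sym => (code s).length
  obtain ⟨c₂, hc₂⟩ := Pool.Agent.Helper31.TMS.exists_bound
    fun σ : M.State => (sd (idx M σ).bits).length
  obtain ⟨C', hC'⟩ := within3 A E c (2 * K + 5 + c₁ + c₂) (47 * |C| + 6600)
  refine ⟨C', fun w hw => ?_⟩
  rcases lt_or_ge C 0 with hC | hC
  · exfalso
    refine hw fun r hr hacc => ⟨0, 0, 0, 0, le_rfl, Nat.zero_le _, by positivity, fun u hu hu' =>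
      absurd hu' (by omega), fun p hp hp' => absurd hp' (by omega), ?_⟩
    have : C * ((w.length : ℝ) + 1) ^ ((5 : ℝ) / 2) / ((Nat.log 2 w.length : ℝ) + 1) ^ 6 < 0 :=
      div_neg_of_neg_of_pos (mul_neg_of_neg_of_pos hC (by positivity)) (by positivity)
    exact this.trans_le (Nat.cast_nonneg _)
  rw [abs_of_nonneg hC] at hC'
  unfold Busy at hw
  push Not at hw
  obtain ⟨r, hr, hacc, hper⟩ := hw
  set n := w.length with hn
  set l := Nat.log 2 n + 1 with hl
  have hl1 : (1 : ℝ) ≤ (Nat.log 2 n : ℝ) + 1 := by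
    have : (0 : ℝ) ≤ (Nat.log 2 n : ℝ) := Nat.cast_nonneg _
    linarith
  set y : ℝ := (Nat.log 2 n : ℝ) + 1 with hy
  set N : ℝ := (n : ℝ) + 1 with hN
  have hN1 : 1 ≤ N := by
    have : (0 : ℝ) ≤ (n : ℝ) := Nat.cast_nonneg _
    linarith
  have hN0 : 0 < N := by linarith
  have hy0 : 0 < y := by linarith
  have hy3 : 0 < y ^ 3 := by positivity
  have hy6 : 0 < y ^ 6 := by positivity
  have h6 : y ^ 6 ≤ 2200 * N := lam6 n
  have h3 : y ^ 3 ≤ 47 * N ^ ((1 : ℝ) / 2) := lam3 n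
  have h36 : y ^ 3 ≤ y ^ 6 := pow_le_pow_right₀ hl1 (by norm_num)
  have hN52 : N ≤ N ^ ((5 : ℝ) / 2) := by
    calc N = N ^ (1 : ℝ) := (Real.rpow_one N).symm
      _ ≤ _ := Real.rpow_le_rpow_of_exponent_le hN1 (by norm_num)
  have hP : 0 ≤ N ^ ((5 : ℝ) / 2) := by positivity
  have hsplit : N * N ^ ((3 : ℝ) / 2) = N ^ ((5 : ℝ) / 2) := by
    nth_rewrite 1 [← Real.rpow_one N]
    rw [← Real.rpow_add hN0]
    norm_num
  have hsplit2 : N * N ^ ((1 : ℝ) / 2) ≤ N ^ ((5 : ℝ) / 2) := by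
    rw [← hsplit]
    exact mul_le_mul_of_nonneg_left (Real.rpow_le_rpow_of_exponent_le hN1 (by norm_num)) hN0.le
  set ρ : ℝ := N ^ ((3 : ℝ) / 2) / y ^ 3 with hρ
  have hρ0 : 0 < ρ := by positivity
  set ν : ℝ := C * N / y ^ 3 with hν
  set ξ : ℝ := C * N ^ ((5 : ℝ) / 2) / y ^ 6 with hξ
  have hν0 : 0 ≤ ν := by positivity
  have hξ0 : 0 ≤ ξ := by positivity
  have hξν : ξ = ν * ρ := by
    rw [hξ, hν, hρ, ← hsplit]
    field_simp
  have hνf : (⌊ν⌋₊ : ℝ) ≤ ν := Nat.floor_le hν0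
  have hξf : (⌊ξ⌋₊ : ℝ) ≤ ξ := Nat.floor_le hξ0
  have hνy : ν * y ^ 3 = C * N := by
    rw [hν]
    field_simp
  have hξy : ξ * y ^ 6 = C * N ^ ((5 : ℝ) / 2) := by
    rw [hξ]
    field_simp
  have hB0 : 0 < ⌈ρ⌉₊ := Nat.ceil_pos.2 hρ0
  have hXB : ⌊ξ⌋₊ + 1 < ⌈ρ⌉₊ * (⌊ν⌋₊ + 1 + 1) := by
    have e1 : ξ < (⌈ρ⌉₊ : ℝ) * (⌊ν⌋₊ + 1) := by
      rw [hξν, mul_comm]
      have e2 : ρ ≤ (⌈ρ⌉₊ : ℝ) := Nat.le_ceil ρ
      have e3 : ν < ⌊ν⌋₊ + 1 := Nat.lt_floor_add_one ν
      calc ρ * ν ≤ (⌈ρ⌉₊ : ℝ) * ν := mul_le_mul_of_nonneg_right e2 hν0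
        _ < _ := mul_lt_mul_of_pos_left e3 (by exact_mod_cast hB0)
    have e4 : (⌊ξ⌋₊ : ℝ) < ((⌈ρ⌉₊ * (⌊ν⌋₊ + 1) : ℕ) : ℝ) := by
      push_cast
      linarith
    have e5 : ⌊ξ⌋₊ < ⌈ρ⌉₊ * (⌊ν⌋₊ + 1) := by exact_mod_cast e4
    rw [Nat.mul_add, Nat.mul_one]
    omega
  have hsim := fun u => sim1 hb hA w [] u
  have hrb : ∀ t ≤ r + 1, M.run w t = M.run w (min t r) := by
    intro t ht
    rcases Nat.lt_or_ge r t with h | h
    · have : t = r + 1 := by omega
      rw [this, min_eq_right (by omega), run_eq hacc]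
    · rw [min_eq_left h]
  have hrK : r + 1 ≤ (n + 2) ^ (2 * K) := by
    calc r + 1 ≤ 2 ^ (K * l) := hr
      _ = (2 ^ l) ^ K := by rw [mul_comm, pow_mul]
      _ ≤ ((n + 2) ^ 2) ^ K := by
          refine Nat.pow_le_pow_left ?_ _
          have := two_pow_log n
          nlinarith
      _ = _ := by rw [← pow_mul]
  have hrK' : r + 1 ≤ (n + 2) ^ (2 * K + 5 + c₁ + c₂) :=
    hrK.trans (Nat.pow_le_pow_right (by omega) (by omega))
  have hBK : ⌈ρ⌉₊ ≤ (n + 2) ^ (2 * K + 5 + c₁ + c₂) := by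
    have h1 : ρ ≤ ((n + 1) ^ 2 : ℕ) := by
      have e1 : N ^ ((3 : ℝ) / 2) ≤ N ^ (2 : ℝ) :=
        Real.rpow_le_rpow_of_exponent_le hN1 (by norm_num)
      have e2 : N ^ (2 : ℝ) = N ^ 2 := by
        exact_mod_cast Real.rpow_natCast N 2
      have e3 : ρ ≤ N ^ ((3 : ℝ) / 2) := div_le_self (by positivity) (one_le_pow₀ hl1)
      push_cast
      calc ρ ≤ N ^ 2 := by rw [← e2]; exact e3.trans e1
        _ = _ := rfl
    calc ⌈ρ⌉₊ ≤ (n + 1) ^ 2 := Nat.ceil_le.2 h1
      _ ≤ (n + 2) ^ 2 := Nat.pow_le_pow_left (by omega) _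
      _ ≤ _ := Nat.pow_le_pow_right (by omega) (by omega)
  refine hC' w [] (r + 1) (K * l) ⌊C * N / y ^ 2⌋₊ (max (⌊ξ⌋₊ + 1) (⌊ν⌋₊ + 1))
    (2 * (⌊ν⌋₊ + 1) + 1) ?_ hrK' ?_ ?_ ?_ ?_ ?_ ?_ ?_
  · obtain ⟨⟨f, d, e1, e2⟩, -⟩ := hsim (r + 1)
    show (A.conf w [] (r + 1)).q.head? = some true
    rw [e1, stW_head, e2.2 ⟨r, rfl, hacc⟩]
  · intro u _
    obtain ⟨⟨f, d, e1, -⟩, -, e3⟩ := hsim u
    have hi := Pool.Agent.Helper31.TMS.inp_le M w u
    have hs := hc₂ (M.run w u).state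
    have hb1 := Pool.Agent.Helper31.TMS.bits_le hi
    have hb2 : ((M.run w u).inp - 1).bits.length ≤ Nat.log 2 w.length + 2 :=
      Pool.Agent.Helper31.TMS.bits_le (by omega)
    have hK : (2 * K + 5 + c₁ + c₂) * (Nat.log 2 w.length + 1) =
        (2 * K) * (Nat.log 2 w.length + 1) + 5 * (Nat.log 2 w.length + 1) +
          c₁ * (Nat.log 2 w.length + 1) + c₂ * (Nat.log 2 w.length + 1) := by ring
    have hK1 : c₁ ≤ c₁ * (Nat.log 2 w.length + 1) := Nat.le_mul_of_pos_right _ (by omega)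
    have hK2 : c₂ ≤ c₂ * (Nat.log 2 w.length + 1) := Nat.le_mul_of_pos_right _ (by omega)
    refine ⟨?_, ?_, fun z => ?_⟩
    · rw [e1]
      simp only [stW, List.length_cons, List.length_append,
        Pool.Agent.Helper31.TMS.mvW_length]
      omega
    · rw [e1, hA.addr]
      omega
    · rw [e3]
      have := hc₁ ((M.run w u).tape 0 (z 0))
      omega
  · exact Nat.mul_le_mul_right _ (by omega)
  · intro t ht k
    obtain ⟨-, e2, -⟩ := hsim t
    rw [e2, hrb t ht]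
    have h1 := head_bd hb hA w (min t r)
    have h2 : min t r ≤ r := min_le_right _ _
    have h3 : (r : ℤ) < 2 ^ (K * l) := by exact_mod_cast hr
    have h4 : ((min t r : ℕ) : ℤ) ≤ r := by exact_mod_cast h2
    constructor
    · show _ ≤ (M.run w (min t r)).head 0
      linarith [h1.1]
    · show (M.run w (min t r)).head 0 < _
      linarith [h1.2]
  · intro t t' ht ht' hno R s h hR
    have hR1 : (n + 2) ^ (2 * K + 5 + c₁ + c₂) ≤ 2 ^ R :=
      (Nat.pow_le_pow_right (by omega) (Nat.le_succ _)).trans hR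
    refine cut3 A w [] hB0 (hBK.trans hR1) (hrK'.trans hR1) ht' hXB (fun z z' hz hvis => ?_) s h
    rcases Nat.lt_or_ge r t with h | h
    · have : {u : ℕ | t ≤ u ∧ u < t' ∧ z ≤ fst (A.conf w [] u).h ∧
          fst (A.conf w [] u).h < z'} = ∅ := by
        rw [Set.eq_empty_iff_forall_notMem]
        rintro u ⟨g1, g2, -⟩
        omega
      rw [this, Set.ncard_empty]
      exact Nat.zero_le _
    · have h1 := hper t (min t' r) z z' (le_min ht h) (min_le_right _ _) hz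
        (fun u hu hu' hs => hno u hu (by omega) (short_of hb hA hs)) fun p hp hp' => by
          have g1 := hvis p hp hp'
          have g2 : vis (fun u => fst (A.conf w [] u).h) t t' p ≤
              {u : ℕ | t ≤ u ∧ u < min t' r ∧ (M.run w u).head 0 = p}.ncard + 1 := by
            have hsub : {u : ℕ | t ≤ u ∧ u < t' ∧ fst (A.conf w [] u).h = p} ⊆
                {u : ℕ | t ≤ u ∧ u < min t' r ∧ (M.run w u).head 0 = p} ∪ {r} := by
              rintro u ⟨f1, f2, f3⟩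
              rw [fst_conf hb hA] at f3
              rcases Nat.lt_or_ge u r with f | f
              · exact Or.inl ⟨f1, by omega, f3⟩
              · exact Or.inr (show u = r by omega)
            refine (Set.ncard_le_ncard hsub ((fin_of (t' := min t' r)
              fun u hu => hu.2.1).union (Set.finite_singleton r))).trans
              ((Set.ncard_union_le _ _).trans ?_)
            rw [Set.ncard_singleton]
          rw [← Nat.floor_lt hν0]
          omega
      have h2 : {u : ℕ | t ≤ u ∧ u < min t' r ∧ z ≤ (M.run w u).head 0 ∧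
          (M.run w u).head 0 < z'}.ncard ≤ ⌊ξ⌋₊ := Nat.le_floor h1
      have hsub : {u : ℕ | t ≤ u ∧ u < t' ∧ z ≤ fst (A.conf w [] u).h ∧
          fst (A.conf w [] u).h < z'} ⊆
          {u : ℕ | t ≤ u ∧ u < min t' r ∧ z ≤ (M.run w u).head 0 ∧
          (M.run w u).head 0 < z'} ∪ {r} := by
        rintro u ⟨g1, g2, g3⟩
        rw [fst_conf hb hA] at g3
        rcases Nat.lt_or_ge u r with g | g
        · exact Or.inl ⟨g1, by omega, g3⟩
        · exact Or.inr (show u = r by omega)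
      calc _ ≤ _ := Set.ncard_le_ncard hsub ((fin_of (t' := min t' r)
            fun u hu => hu.2.1).union (Set.finite_singleton r))
        _ ≤ _ := Set.ncard_union_le _ _
        _ ≤ _ := by
          rw [Set.ncard_singleton]
          exact Nat.add_le_add_right h2 1
  · rw [Nat.cast_max, max_mul_of_nonneg _ _ hy6.le]
    refine max_le ?_ ?_
    · push_cast
      calc ((⌊ξ⌋₊ : ℝ) + 1) * y ^ 6 = (⌊ξ⌋₊ : ℝ) * y ^ 6 + y ^ 6 := by ring
        _ ≤ ξ * y ^ 6 + y ^ 6 := by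
          have := mul_le_mul_of_nonneg_right hξf hy6.le
          linarith
        _ ≤ C * N ^ ((5 : ℝ) / 2) + 2200 * N ^ ((5 : ℝ) / 2) := by
          rw [hξy]
          linarith
        _ ≤ 47 * (C * N ^ ((5 : ℝ) / 2)) + 6600 * N ^ ((5 : ℝ) / 2) := by
          have := mul_nonneg hC hP
          linarith
        _ = (47 * C + 6600) * N ^ ((5 : ℝ) / 2) := by ring
    · push_cast
      calc ((⌊ν⌋₊ : ℝ) + 1) * y ^ 6 = (⌊ν⌋₊ : ℝ) * y ^ 6 + y ^ 6 := by ring
        _ ≤ ν * y ^ 6 + y ^ 6 := by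
          have := mul_le_mul_of_nonneg_right hνf hy6.le
          linarith
        _ = C * N * y ^ 3 + y ^ 6 := by
          rw [← hνy]
          ring
        _ ≤ C * N * (47 * N ^ ((1 : ℝ) / 2)) + 2200 * N ^ ((5 : ℝ) / 2) := by
          have := mul_le_mul_of_nonneg_left h3 (mul_nonneg hC hN0.le)
          linarith
        _ = 47 * C * (N * N ^ ((1 : ℝ) / 2)) + 2200 * N ^ ((5 : ℝ) / 2) := by ring
        _ ≤ 47 * C * N ^ ((5 : ℝ) / 2) + 6600 * N ^ ((5 : ℝ) / 2) := by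
          have := mul_le_mul_of_nonneg_left hsplit2 (by positivity : (0 : ℝ) ≤ 47 * C)
          linarith
        _ = (47 * C + 6600) * N ^ ((5 : ℝ) / 2) := by ring
  · push_cast
    calc (2 * ((⌊ν⌋₊ : ℝ) + 1) + 1) * y ^ 3 = 2 * ((⌊ν⌋₊ : ℝ) * y ^ 3) + 3 * y ^ 3 := by ring
      _ ≤ 2 * (ν * y ^ 3) + 3 * y ^ 3 := by
        have := mul_le_mul_of_nonneg_right hνf hy3.le
        linarith
      _ ≤ 47 * (C * N) + 6600 * N := by
        have := mul_nonneg hC hN0.le
        rw [hνy]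
        linarith
      _ = (47 * C + 6600) * N := by ring
  · have h0 : (⌊C * N / y ^ 2⌋₊ : ℝ) ≤ C * N / y ^ 2 := Nat.floor_le (by positivity)
    rw [le_div_iff₀ (by positivity)] at h0
    calc _ ≤ C * N := h0
      _ ≤ 47 * (C * N) + 6600 * N := by
        have := mul_nonneg hC hN0.le
        linarith
      _ = (47 * C + 6600) * N := by ring

end

/-- Hardness for a machine without advice. -/
theorem hard_nil {L : Set (List Bool)} {c : ℕ} {Acc Good : List Bool → List Bool → Prop}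
    (h : Hard L c Acc Good) : Hard L c (fun w _ => Acc w []) fun w _ => Good w [] := by
  refine ⟨?_, ?_, fun M hM => h.ae M hM⟩
  · obtain ⟨c', h1⟩ := h.avg
    refine ⟨|c'|, fun n α M hM => (h1 n [] M hM).trans (add_le_add_right ?_ _)⟩
    simp only [List.length_nil, Nat.cast_zero, zero_add, mul_one, zero_div, add_zero]
    have e1 : (2 : ℝ) ^ ((n : ℝ) / 2) ≤ 2 ^ (((n : ℝ) + α.length / c) / 2) :=
      Real.rpow_le_rpow_of_exponent_le (by norm_num) (by
        have : (0 : ℝ) ≤ (α.length : ℝ) / c := by positivity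
        linarith)
    have e2 : (1 : ℝ) ≤ (α.length : ℝ) + 1 := by
      have : (0 : ℝ) ≤ (α.length : ℝ) := Nat.cast_nonneg _
      linarith
    calc c' * (2 : ℝ) ^ ((n : ℝ) / 2) ≤ |c'| * 1 * (2 : ℝ) ^ ((n : ℝ) / 2) := by
          rw [mul_one]
          exact mul_le_mul_of_nonneg_right (le_abs_self c') (by positivity)
      _ ≤ |c'| * ((α.length : ℝ) + 1) * 2 ^ (((n : ℝ) + α.length / c) / 2) :=
          mul_le_mul (mul_le_mul_of_nonneg_left e2 (abs_nonneg c')) e1 (by positivity)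
            (by positivity)
  · obtain ⟨c', h1⟩ := h.rel
    refine ⟨|c'|, fun n α M hM => (h1 n [] M hM).trans ?_⟩
    simp only [List.length_nil, Nat.cast_zero, zero_add, mul_one, zero_div, Real.rpow_zero]
    have e1 : (1 : ℝ) ≤ 2 ^ ((α.length : ℝ) / (2 * c)) :=
      Real.one_le_rpow (by norm_num) (by positivity)
    have e2 : (1 : ℝ) ≤ (α.length : ℝ) + 1 := by
      have : (0 : ℝ) ≤ (α.length : ℝ) := Nat.cast_nonneg _
      linarith
    have e3 : |c'| ≤ |c'| * ((α.length : ℝ) + 1) * 2 ^ ((α.length : ℝ) / (2 * c)) := by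
      calc |c'| = |c'| * 1 * 1 := by ring
        _ ≤ _ := mul_le_mul (mul_le_mul_of_nonneg_left e2 (abs_nonneg c')) e1 (by positivity)
            (by positivity)
    have e4 := Real.sqrt_nonneg ({w : List Bool | w.length = n ∧ w ∉ M ∧ Acc w []}.ncard : ℝ)
    have e5 := le_abs_self c'
    have e6 := neg_abs_le c'
    refine sq_le_sq' ?_ ?_ <;> linarith

/-- **Turing machines with one work tape.** -/
theorem tm_busy {L : Set (List Bool)} {c : ℕ}
    (h : ∀ (D : ℕ), 0 < D → ∀ (A : OneHead D) (E : Decomp) (C : ℝ),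
      Hard L c (fun w α => ∃ r, A.AcceptsAt w α r) fun w α => Within A E c C w α)
    (M : TM 1) (code : M.Sym → List Bool) (hcode : Function.Injective code)
    (hb : code M.blank = []) (E : Decomp) (K : ℕ) (C : ℝ) :
    Hard L c (fun w _ => ∃ t, AcceptsAt M w t) fun w _ => ¬Busy M code E c K C w := by
  obtain ⟨A, hA⟩ := exists_mach1 M hcode
  obtain ⟨C₂, hC₂⟩ := within_of hb hA E c K C
  refine (hard_nil (h 1 one_pos A E C₂)).mono ?_ fun w _ hw => hC₂ w hw
  rintro w - ⟨t, ht⟩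
  obtain ⟨⟨f, d, e1, e2⟩, -⟩ := sim1 hb hA w [] t
  have e3 : (A.conf w [] t).q.head? = some true := ht
  rw [e1, stW_head] at e3
  obtain ⟨u, -, hu⟩ := e2.1 (Option.some.inj e3)
  exact ⟨u, hu⟩

/-- **Machines with one head, of any time and space, and Turing machines with one work tape.** -/
theorem rect_tm (c : ℕ) (hc : 0 < c) :
    (∀ (D : ℕ), 0 < D → ∀ (A : OneHead D) (E : Decomp) (L : Set (List Bool)) (C : ℝ),
      (∀ w, Q (c * w.length) (fun v => ∃ r, A.AcceptsAt w v r) → w ∈ L) →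
      (∀ w ∈ L, Q (c * w.length) (Within A E c C w)) → DLINSPACE L) ∧
    ∃ L : Set (List Bool), DLINSPACE L ∧
      (∀ (D : ℕ), 0 < D → ∀ (A : OneHead D) (E : Decomp) (C : ℝ),
        Hard L c (fun w α => Q (c * w.length) fun v => ∃ r, A.AcceptsAt w (α ++ v) r)
          fun w α => Q (c * w.length) fun v => Within A E c C w (α ++ v)) ∧
      ∀ (M : TM 1) (code : M.Sym → List Bool), Function.Injective code →
        code M.blank = [] → ∀ (E : Decomp) (K : ℕ) (C : ℝ),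
        Hard L c (fun w _ => ∃ t, AcceptsAt M w t) fun w _ => ¬Busy M code E c K C w := by
  refine ⟨(rect c hc).1, ?_⟩
  obtain ⟨L, h1, h2⟩ := rect_two Pool.Agent.Helper65.OH.simP parts c hc
  exact ⟨L, h1, fun D hD A E C => (h2 D hD A E C).1, fun M code hcode hb E K C =>
    tm_busy (fun D hD A E C => (h2 D hD A E C).2) M code hcode hb E K C⟩

end Pool.Agent.Helper92.RECTT
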