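import Pool.Agent.Helper92.RECT.Final
import Pool.Agent.Helper31.Gen5.Hard

/-!
# One language for machines with and without guessed letters

The words `drp` are as in `Pool/Agent/Helper31/MHS/Two.lean`.
-/

namespace Pool.Agent.Helper92.RECTT

open Pool.Agent.Helper65.LinSpace Pool.Agent.Helper28.Ram Pool.Agent.Helper78.Mpc
open Pool.Agent.Helper65.OH (OneHead)
open Pool.Agent.Helper92.RECT
open Pool.Agent.Helper28.Few (Sim)
open Pool.Agent.Helper81.Sus2 (Decomp)
open Pool.Agent.Helper81.Gen4 (Q Q_congr Q_const)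
open Pool.Agent.Helper31.Gen5 (Hard q_hard)

/-- The word `y` without its last `c n` letters, where `n` is the length of the word `x`. -/
def drp (c x y : ℕ) : ℕ :=
  y % 2 ^ (Nat.log 2 y - c * Nat.log 2 x) + 2 ^ (Nat.log 2 y - c * Nat.log 2 x)

theorem drp_num (c : ℕ) (w y : List Bool) :
    drp c (num w) (num y) = num (y.take (y.length - c * w.length)) := by
  have h2 : Nat.log 2 (num y) - c * Nat.log 2 (num w) = y.length - c * w.length := by
    rw [Pool.Agent.Helper65.LinSpace.log_num, Pool.Agent.Helper65.LinSpace.log_num]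
  unfold drp
  rw [h2]
  generalize hm : y.length - c * w.length = m
  have h1 := Pool.Agent.Helper78.Mpc.num_append (y.take m) (y.drop m)
  rw [List.take_append_drop, List.length_take, min_eq_left (by omega)] at h1
  have h3 := Pool.Agent.Helper65.LinSpace.log_num (y.take m)
  rw [List.length_take, min_eq_left (by omega)] at h3
  have h4 : 2 ^ Nat.log 2 (num (y.take m)) ≤ num (y.take m) :=
    Nat.pow_log_le_self 2 (num_pos _).ne'
  have h5 : num (y.take m) < 2 ^ (Nat.log 2 (num (y.take m)) + 1) :=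
    Nat.lt_pow_succ_log_self (by norm_num) _
  rw [h3] at h4 h5
  have h7 : num y = num (y.take m) - 2 ^ m + 2 ^ m * num (y.drop m) := by
    omega
  rw [h7, Nat.add_mul_mod_self_left, Nat.mod_eq_of_lt]
  · omega
  · rw [pow_succ] at h5
    omega

theorem ls_drp (c : ℕ) : LS (fun z : ℕ × ℕ => drp c z.1 z.2) := by
  have h : LS (fun z : ℕ × ℕ => 2 ^ (Nat.log 2 z.2 - c * Nat.log 2 z.1)) := by
    refine LS.pow_of_le (f := fun _ => 2) (C := fun z : ℕ × ℕ => z.2 + 1) (LS.const 2)
      (by fun_prop) (by fun_prop) fun z => ?_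
    rcases Nat.eq_zero_or_pos z.2 with h0 | h0
    · rw [h0]
      simp
    · calc 2 ^ (Nat.log 2 z.2 - c * Nat.log 2 z.1) ≤ 2 ^ Nat.log 2 z.2 :=
            Nat.pow_le_pow_right (by norm_num) (Nat.sub_le _ _)
        _ ≤ z.2 := Nat.pow_log_le_self 2 h0.ne'
        _ ≤ _ := Nat.le_succ _
  unfold drp
  fun_prop

theorem q_take (c : ℕ) (w α : List Bool) (P : List Bool → Prop) :
    Q (c * w.length) (fun v => P ((α ++ v).take ((α ++ v).length - 3 * c * w.length))) ↔ P α := by
  rw [← Q_const (c * w.length) (P α)]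
  refine Q_congr fun x u y hx hu hy => ?_
  have e : (α ++ (x ++ (u ++ y))).length - 3 * c * w.length = α.length := by
    simp only [List.length_append, hx, hu, hy]
    have : 3 * c * w.length = c * w.length + (c * w.length + c * w.length) := by ring
    omega
  rw [e, List.take_left']
  rfl

/-- The decision for machines which read the guessed letters (even codes), and for those which do
not (odd codes). -/
noncomputable def accB (Z : Sim) (c u x y T : ℕ) : ℕ :=
  acc Z c (u / 2) x (ifz (u % 2) y (drp (3 * c) x y)) T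

theorem ls_accB (Z : Sim) (H : Parts) (c : ℕ) :
    LS (fun z : ℕ × ℕ × ℕ × ℕ => accB Z c z.1 z.2.1 z.2.2.1 z.2.2.2) := by
  have h1 : LS (fun z : ℕ × ℕ × ℕ × ℕ => ifz (z.1 % 2) z.2.2.1 (drp (3 * c) z.2.1 z.2.2.1)) :=
    LS.ifz (by fun_prop) (by fun_prop)
      (LS.comp (g := fun z : ℕ × ℕ => drp (3 * c) z.1 z.2)
        (f := fun z : ℕ × ℕ × ℕ × ℕ => (z.2.1, z.2.2.1)) (ls_drp (3 * c)) (by fun_prop))
  exact LS.comp (g := fun z : ℕ × ℕ × ℕ × ℕ => acc Z c z.1 z.2.1 z.2.2.1 z.2.2.2)
    (f := fun z : ℕ × ℕ × ℕ × ℕ => (z.1 / 2, z.2.1,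
      ifz (z.1 % 2) z.2.2.1 (drp (3 * c) z.2.1 z.2.2.1), z.2.2.2)) (LS.acc Z H c) (by fun_prop)

/-- **Hardness for machines with one head**, with and without guessed letters. -/
theorem rect_two (Z : Sim) (H : Parts) (c : ℕ) (hc : 0 < c) :
    ∃ L : Set (List Bool), DLINSPACE L ∧
      ∀ (D : ℕ), 0 < D → ∀ (A : OneHead D) (E : Decomp) (C : ℝ),
        Hard L c (fun w α => Q (c * w.length) fun v => ∃ r, A.AcceptsAt w (α ++ v) r)
          (fun w α => Q (c * w.length) fun v => Within A E c C w (α ++ v)) ∧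
        Hard L c (fun w α => ∃ r, A.AcceptsAt w α r) fun w α => Within A E c C w α := by
  obtain ⟨L, h1, h4⟩ := q_hard (accB Z c) NF (ls_accB Z H c) LS.NF c c hc
  refine ⟨L, h1, fun D hD A E C => ⟨?_, ?_⟩⟩
  · obtain ⟨e, n₀, he⟩ := exists_good Z H c hD A E C
    refine h4 (fun w y => ∃ r, A.AcceptsAt w y r) (Within A E c C) ⟨2 * e, n₀, ?_⟩
    intro w y hw
    have e1 : 2 * e / 2 = e := by omega
    have e2 : 2 * e % 2 = 0 := by omega
    simp only [accB, e1, e2, ifz, if_true]
    exact he w y hw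
  · obtain ⟨e, n₀, he⟩ := exists_good Z H c hD A E C
    have h := h4
      (fun w y => ∃ r, A.AcceptsAt w (y.take (y.length - 3 * c * w.length)) r)
      (fun w y => Within A E c C w (y.take (y.length - 3 * c * w.length))) ⟨2 * e + 1, n₀, ?_⟩
    · exact h.mono
        (fun w α h => (q_take c w α fun y => ∃ r, A.AcceptsAt w y r).1 h)
        (fun w α h => (q_take c w α fun y => Within A E c C w y).2 h)
    · intro w y hw
      have e1 : (2 * e + 1) / 2 = e := by omega
      have e2 : (2 * e + 1) % 2 = 1 := by omega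
      simp only [accB, e1, e2, ifz, one_ne_zero, if_false, drp_num]
      exact he w _ hw

end Pool.Agent.Helper92.RECTT
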